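import Mathlib
import Pool.Agent.R516.ZH

/-!
# Weak subconvexity for `L(f × f × h, 1/2)` in the spectral aspect, with the zeros taken into account

`L(f × f × h, s) = L(Sym² f × h, s) L(h, s)` (up to twists) has the analytic properties of a standard
L-function of degree eight (Gelbart-Jacquet, Kim-Shahidi). Four of its archimedean parameters are
bounded and four have size `t_f`; uniformly in `f`,

`|L(f × f × h, 1/2)| ≤ B · t_f (log log (t_f + 16))^2 / (log (t_f + 16))^{1/2} · exp (- α N / 7)`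

for every finite set of zeros in the box `α ≤ Re ρ ≤ 1 - α`, `|Im ρ| ≤ 1`, of total multiplicity `N`.
-/

set_option autoImplicit false

namespace Pool.Agent.Results.MP_9c0622_nt.WeakWithZeros

open Pool.Agent.Results.MP_cf4097_nt.ZeroForm

/-- For all `θ < 1/2`, `A`, `C ≥ 1` and `0 < α ≤ 1/2` there is `B` such that for every standard
L-function of degree eight with parameters `θ` and `A`, arithmetic conductor at most `C`, four
archimedean parameters at most `C` and the four others at most `C T`, `T ≥ 1` (for `f × f × h`: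
`T = t_f`), and every finite set `S` of points with `α ≤ Re ρ ≤ 1 - α`, `|Im ρ| ≤ 1`:
`|L(1/2)| ≤ B T (log log (T + 16))^2 / (log (T + 16))^{1/2} exp (- (α / 7) ∑ m(ρ))`. -/
theorem result (θ A C α : ℝ) (hθ : θ < 1 / 2) (hC : 1 ≤ C) (hα : 0 < α) (hα2 : α ≤ 1 / 2) :
    ∃ B : ℝ, ∀ D : StdL 8, D.IsStandard θ A → (D.q : ℝ) ≤ C → ∀ T : ℝ, 1 ≤ T →
      (∀ j : Fin 8, (j : ℕ) < 4 → ‖D.μ j‖ ≤ C) → (∀ j : Fin 8, 4 ≤ (j : ℕ) → ‖D.μ j‖ ≤ C * T) →
      ∀ S : Finset ℂ, (∀ ρ ∈ S, α ≤ ρ.re ∧ ρ.re ≤ 1 - α ∧ |ρ.im| ≤ 1) →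
        ‖D.L (1 / 2)‖ ≤ B * (T *
          Real.log (Real.log (T + 16)) ^ 2 / Real.sqrt (Real.log (T + 16))) *
          Real.exp (-(α / 7 * ∑ ρ ∈ S, (analyticOrderNatAt D.L ρ : ℝ))) := by
  have hE : 1 ≤ C * ((2 + C) ^ 4 * (2 + C) ^ 4) := by
    have e1 : 1 ≤ 2 + C := by linarith
    have e2 : 1 ≤ (2 + C) ^ 4 := one_le_pow₀ e1
    exact one_le_mul_of_one_le_of_one_le hC (one_le_mul_of_one_le_of_one_le e2 e2)
  obtain ⟨B, hB⟩ := Pool.Agent.R516.ZH.drop 8 4 (by norm_num) θ A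
    (C * ((2 + C) ^ 4 * (2 + C) ^ 4)) α hθ hE hα hα2
  refine ⟨B, fun D H hq T hT h0 h1 S hS => ?_⟩
  have hhalf : ‖(1 / 2 : ℂ)‖ ≤ 1 := by norm_num
  have bd : ∀ (w : ℂ) (M : ℝ), ‖w‖ ≤ M →
      1 + ‖1 / 2 + ((0 : ℝ) : ℂ) * Complex.I + w‖ ≤ 2 + M := by
    intro w M hw
    have e0 : 1 / 2 + ((0 : ℝ) : ℂ) * Complex.I + w = 1 / 2 + w := by simp
    rw [e0]
    have e1 := norm_add_le (1 / 2 : ℂ) w
    linarith
  have hQ : D.cond (1 / 2 + ((0 : ℝ) : ℂ) * Complex.I) ≤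
      (C * ((2 + C) ^ 4 * (2 + C) ^ 4)) * T ^ 4 := by
    unfold StdL.cond
    have hle : ∏ j : Fin 8, (1 + ‖1 / 2 + ((0 : ℝ) : ℂ) * Complex.I + D.μ j‖) ≤
        ∏ j : Fin 8, (if (j : ℕ) < 4 then (2 + C) else (2 + C) * T) := by
      refine Finset.prod_le_prod (fun _ _ => by positivity) fun j _ => ?_
      split_ifs with hj
      · exact bd _ _ (h0 j hj)
      · have := bd _ _ (h1 j (not_lt.1 hj))
        nlinarith
    have hev : ∏ j : Fin 8, (if (j : ℕ) < 4 then (2 + C) else (2 + C) * T) =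
        (2 + C) ^ 4 * (2 + C) ^ 4 * T ^ 4 := by
      simp [Fin.prod_univ_eight]
      ring
    rw [hev] at hle
    calc (D.q : ℝ) * ∏ j, (1 + ‖1 / 2 + ((0 : ℝ) : ℂ) * Complex.I + D.μ j‖)
        ≤ C * ((2 + C) ^ 4 * (2 + C) ^ 4 * T ^ 4) := by gcongr
      _ = _ := by ring
  have key := hB D H 0 T hT hQ S (fun ρ hρ => by
    have := hS ρ hρ
    rw [sub_zero]
    exact this)
  have e1 : Pool.Agent.R516.ZH.size 4 T = T *
      Real.log (Real.log (T + 16)) ^ 2 / Real.sqrt (Real.log (T + 16)) := by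
    unfold Pool.Agent.R516.ZH.size
    norm_num
  rw [e1] at key
  simpa using key

end Pool.Agent.Results.MP_9c0622_nt.WeakWithZeros
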